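import Pool.Agent.H590.IC.Stm

set_option autoImplicit false

/-!
# LO: the cube
-/

open MeasureTheory Set Filter Topology
open scoped Matrix

namespace Pool.Agent.H824.IC

theorem fact_le (k : ℕ) : 6 ^ k * k.factorial ≤ (2 * k + 1).factorial := by
  induction k with
  | zero => simp
  | succ k ih =>
    have e : 2 * (k + 1) + 1 = (2 * k + 1) + 1 + 1 := by ring
    rw [e, Nat.factorial_succ (2 * k + 1 + 1), Nat.factorial_succ (2 * k + 1), Nat.factorial_succ k,
      pow_succ]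
    calc 6 ^ k * 6 * ((k + 1) * k.factorial) = (6 * (k + 1)) * (6 ^ k * k.factorial) := by ring
      _ ≤ ((2 * k + 1 + 1 + 1) * (2 * k + 1 + 1)) * (2 * k + 1).factorial :=
          Nat.mul_le_mul (by nlinarith) ih
      _ = _ := by ring

theorem sinh_le {t : ℝ} (ht : 0 ≤ t) : Real.sinh t ≤ t * Real.exp (t ^ 2 / 6) := by
  have h1 := Real.hasSum_sinh t
  have h2 : HasSum (fun k : ℕ => (t ^ 2 / 6) ^ k / (k.factorial : ℝ)) (Real.exp (t ^ 2 / 6)) := by
    rw [Real.exp_eq_exp_ℝ]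
    exact NormedSpace.expSeries_div_hasSum_exp (t ^ 2 / 6)
  refine hasSum_le (fun k => ?_) h1 (h2.mul_left t)
  have h3 : (0 : ℝ) < ((2 * k + 1).factorial : ℝ) := by exact_mod_cast Nat.factorial_pos _
  have h4 : (0 : ℝ) < 6 ^ k * (k.factorial : ℝ) := by
    have : (0 : ℝ) < (k.factorial : ℝ) := by exact_mod_cast Nat.factorial_pos _
    positivity
  have h5 : (6 : ℝ) ^ k * (k.factorial : ℝ) ≤ ((2 * k + 1).factorial : ℝ) := by
    exact_mod_cast fact_le k
  have e : t * ((t ^ 2 / 6) ^ k / (k.factorial : ℝ)) =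
      t ^ (2 * k + 1) / (6 ^ k * (k.factorial : ℝ)) := by
    rw [div_pow, ← pow_mul, pow_succ]
    field_simp
  rw [e]
  exact div_le_div_of_nonneg_left (pow_nonneg ht _) h4 h5

theorem integral_eq (t : ℝ) : (∫ x in (-1 : ℝ)..1, Real.exp (x * t)) * t = 2 * Real.sinh t := by
  rcases eq_or_ne t 0 with rfl | ht
  · simp
  · rw [intervalIntegral.integral_comp_mul_right (fun x => Real.exp x) ht, integral_exp,
      Real.sinh_eq]
    rw [neg_one_mul, one_mul, smul_eq_mul]
    field_simp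

theorem integral_even (t : ℝ) :
    (∫ x in (-1 : ℝ)..1, Real.exp (x * (-t))) = ∫ x in (-1 : ℝ)..1, Real.exp (x * t) := by
  have h := intervalIntegral.integral_comp_neg (a := (-1 : ℝ)) (b := 1)
    (fun x : ℝ => Real.exp (x * t))
  rw [neg_neg] at h
  rw [← h]
  refine intervalIntegral.integral_congr fun x _ => ?_
  congr 1
  ring

theorem integral_le_pos {t : ℝ} (ht : 0 < t) :
    ∫ x in (-1 : ℝ)..1, Real.exp (x * t) ≤ 2 * Real.exp (t ^ 2 / 6) := by
  refine le_of_mul_le_mul_right ?_ ht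
  rw [integral_eq]
  have := sinh_le ht.le
  linarith

/-- the bound -/
theorem integral_le (t : ℝ) :
    ∫ x in (-1 : ℝ)..1, Real.exp (x * t) ≤ 2 * Real.exp (t ^ 2 / 6) := by
  rcases lt_trichotomy t 0 with ht | rfl | ht
  · have h := integral_le_pos (t := -t) (by linarith)
    rwa [integral_even, neg_sq] at h
  · simp
    norm_num
  · exact integral_le_pos ht

open Pool.Agent.H771.LT Pool.Agent.H771.LM

theorem n1_le (t : ℝ) : n1 t ≤ 2 * Real.exp (t ^ 2 / 6) := integral_le t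

theorem fS_ge {s : ℝ} (hs : 1 ≤ s) : (2 : ℝ) ^ (-s) * √(6 * Real.pi / s) ≤ fS s := by
  have hs0 : 0 < s := by linarith
  have h1 : ∀ t : ℝ, (2 : ℝ) ^ (-s) * Real.exp (-(s / 6) * t ^ 2) ≤ n1 t ^ (-s) := by
    intro t
    have h2 : (2 * Real.exp (t ^ 2 / 6)) ^ (-s) ≤ n1 t ^ (-s) :=
      Real.rpow_le_rpow_of_nonpos (n1_pos t) (n1_le t) (by linarith)
    refine le_trans (le_of_eq ?_) h2
    rw [Real.mul_rpow (by norm_num) (Real.exp_pos _).le, ← Real.exp_mul]
    congr 2
    ring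
  have h3 : Integrable fun t : ℝ => (2 : ℝ) ^ (-s) * Real.exp (-(s / 6) * t ^ 2) :=
    (integrable_exp_neg_mul_sq (by positivity)).const_mul _
  have h4 := integral_mono h3 (int_fS hs0) h1
  rw [integral_const_mul, integral_gaussian] at h4
  have e : Real.pi / (s / 6) = 6 * Real.pi / s := by
    field_simp
  rw [e] at h4
  exact h4

theorem lo : H590IC.S_LO := by
  intro m s hs
  have hs0 : 0 < s := by linarith
  rw [F_Q]
  have h1 := fS_ge hs
  have h2 : ((2 : ℝ) ^ (-s) * √(6 * Real.pi / s)) ^ (m + 1) ≤ fS s ^ (m + 1) :=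
    pow_le_pow_left₀ (by positivity) h1 _
  refine le_trans (le_of_eq ?_) h2
  have hx : 0 ≤ 6 * Real.pi / s := by positivity
  rw [mul_pow]
  congr 1
  · rw [← Real.rpow_natCast, ← Real.rpow_natCast, ← Real.rpow_mul (by norm_num),
      ← Real.rpow_mul (by norm_num)]
    congr 1
    ring
  · rw [Real.sqrt_eq_rpow, ← Real.rpow_natCast, ← Real.rpow_mul hx]
    congr 1
    push_cast
    ring

end Pool.Agent.H824.IC
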